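import Pool.Agent.KS6_77.Czero.Main

set_option autoImplicit false

namespace Pool.Agent.Results.MP_fddf76_an.NoEmbedding

open scoped ZeroAtInfty

/-- `E` is linearly isomorphic to a subspace of `F` -/
def Embeds (E F : Type) [NormedAddCommGroup E] [NormedSpace ℝ E] [NormedAddCommGroup F]
    [NormedSpace ℝ F] : Prop :=
  ∃ (T : E →L[ℝ] F) (c : ℝ), 0 < c ∧ ∀ x, c * ‖x‖ ≤ ‖T x‖

/-- **A Banach space uniformly homeomorphic to `c₀` which is not isomorphic to a subspace of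
`c₀(Γ)`, for any set `Γ`**; moreover for every Banach space `Z` the spaces `Z × X` and `Z × c₀` are
uniformly homeomorphic and `Z × X` is not isomorphic to a subspace of any `c₀(Γ)`. -/
theorem result :
    ∃ (X : Type) (_ : NormedAddCommGroup X) (_ : NormedSpace ℝ X) (_ : CompleteSpace X),
      Nonempty (UniformEquiv X C₀(ℕ, ℝ)) ∧
      (∀ (Γ : Type) [TopologicalSpace Γ] [DiscreteTopology Γ], ¬ Embeds X C₀(Γ, ℝ)) ∧
      ∀ (Z : Type) [NormedAddCommGroup Z] [NormedSpace ℝ Z] [CompleteSpace Z],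
        Nonempty (UniformEquiv (Z × X) (Z × C₀(ℕ, ℝ))) ∧
        ∀ (Γ : Type) [TopologicalSpace Γ] [DiscreteTopology Γ], ¬ Embeds (Z × X) C₀(Γ, ℝ) := by
  obtain ⟨X, i1, i2, i3, ⟨e⟩, h⟩ := Pool.Agent.KS6_77.Czero.main
  have key : ∀ (Γ : Type) [TopologicalSpace Γ] [DiscreteTopology Γ], ¬ Embeds X C₀(Γ, ℝ) := by
    rintro Γ i4 i5 ⟨T, c, hc, hT⟩
    obtain ⟨x, hx⟩ := h Γ i4 i5 T T.continuous (fun x y => map_add T x y)
      (fun a x => map_smul T a x) c hc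
    exact absurd (hT x) (not_le.2 hx)
  refine ⟨X, i1, i2, i3, ⟨e⟩, key, fun Z _ _ _ => ⟨⟨(UniformEquiv.refl Z).prodCongr e⟩, ?_⟩⟩
  rintro Γ _ _ ⟨T, c, hc, hT⟩
  refine key Γ ⟨T.comp (ContinuousLinearMap.inr ℝ Z X), c, hc, fun x => ?_⟩
  have h1 := hT (0, x)
  rw [Prod.norm_mk, norm_zero, max_eq_right (norm_nonneg x)] at h1
  exact h1

end Pool.Agent.Results.MP_fddf76_an.NoEmbedding
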